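import Pool.Agent.W872.MX.Stm

/-!
# Project MX: near-perfect matchings in both colours (part ODD)
-/

set_option autoImplicit false

namespace Pool.Agent.W412.MX

open Finset W872.MX

/-- the positions: `r` pairs and one free position -/
abbrev Pos (r : ℕ) : Type := Option (Fin r × Bool)

section
open Classical

variable {r : ℕ} {W : Type} (R : SimpleGraph W)

/-- the red pairs -/
noncomputable def reds (σ : Pos r ≃ W) : Finset (Fin r) :=
  univ.filter fun a => R.Adj (σ (some (a, false))) (σ (some (a, true)))

/-- the number of red pairs -/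
noncomputable def val (σ : Pos r ≃ W) : ℕ := (reds R σ).card

theorem star (σ : Pos r ≃ W) (x : Pos r) : val R ((Equiv.swap none x).trans σ) ≤ val R σ + 1 := by
  rcases x with _ | ⟨a₀, b₀⟩
  · have : (Equiv.swap (none : Pos r) none).trans σ = σ := by
      rw [Equiv.swap_self]
      rfl
    rw [this]
    exact Nat.le_succ _
  · have h : reds R ((Equiv.swap none (some (a₀, b₀))).trans σ) ⊆ insert a₀ (reds R σ) := by
      intro a ha
      by_cases h0 : a = a₀
      · rw [h0]
        exact mem_insert_self _ _
      · apply mem_insert_of_mem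
        have hne : ∀ b, (Equiv.swap (none : Pos r) (some (a₀, b₀))) (some (a, b)) = some (a, b) := by
          intro b
          apply Equiv.swap_apply_of_ne_of_ne
          · exact Option.some_ne_none _
          · intro h1
            apply h0
            simp only [Option.some.injEq, Prod.mk.injEq] at h1
            exact h1.1
        unfold reds at ha ⊢
        rw [mem_filter] at ha ⊢
        refine ⟨ha.1, ?_⟩
        have h2 := ha.2
        simp only [Equiv.trans_apply] at h2
        rw [hne, hne] at h2
        exact h2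
    exact (card_le_card h).trans (card_insert_le _ _)

theorem conn (i : ℕ) (hi : ∀ σ : Pos r ≃ W, val R σ ≠ i) (σ₀ : Pos r ≃ W) (h0 : val R σ₀ < i)
    (π : Equiv.Perm (Pos r)) : val R (Equiv.trans π σ₀) < i := by
  have st : ∀ (f : Equiv.Perm (Pos r)) (x : Pos r), val R (Equiv.trans f σ₀) < i →
      val R (Equiv.trans (f * Equiv.swap none x) σ₀) < i := by
    intro f x hf
    have h1 : Equiv.trans (f * Equiv.swap none x) σ₀ =
        (Equiv.swap none x).trans (Equiv.trans f σ₀) := rfl
    rw [h1]
    have h2 := star R (Equiv.trans f σ₀) x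
    have h3 := hi ((Equiv.swap none x).trans (Equiv.trans f σ₀))
    omega
  refine Equiv.Perm.swap_induction_on' π h0 ?_
  intro f x y hxy hf
  rcases x with _ | x
  · exact st f y hf
  rcases y with _ | y
  · rw [Equiv.swap_comm]
    exact st f _ hf
  have h1 : Equiv.swap (some x) (some y) =
      Equiv.swap none (some x) * Equiv.swap none (some y) * Equiv.swap none (some x) := by
    have h2 := Equiv.swap_mul_swap_mul_swap (x := some y) (y := (none : Pos r)) (z := some x)
      (Option.some_ne_none _) (Ne.symm hxy)
    rw [← h2, Equiv.swap_comm (some y) none]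
  rw [h1, ← mul_assoc, ← mul_assoc]
  exact st _ _ (st _ _ (st _ _ hf))

theorem ext {r : ℕ} (g : Fin r × Bool ↪ Fin (2 * r + 1)) :
    ∃ σ : Pos r ≃ Fin (2 * r + 1), ∀ x, σ (some x) = g x := by
  obtain ⟨w, hw⟩ : ∃ w, w ∉ univ.map g := by
    by_contra hcon
    push Not at hcon
    have h1 : (univ : Finset (Fin (2 * r + 1))) ⊆ univ.map g := fun w _ => hcon w
    have h2 := card_le_card h1
    rw [card_map, card_univ, card_univ, Fintype.card_fin, Fintype.card_prod, Fintype.card_fin,
      Fintype.card_bool] at h2
    omega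
  have hw' : ∀ x, g x ≠ w := fun x h => hw (mem_map.2 ⟨x, mem_univ _, h⟩)
  set h : Pos r → Fin (2 * r + 1) := fun x => x.elim w g with hdef
  have hinj : Function.Injective h := by
    intro x y hxy
    rcases x with _ | x <;> rcases y with _ | y
    · rfl
    · exact absurd hxy.symm (hw' y)
    · exact absurd hxy (hw' x)
    · exact congrArg some (g.injective hxy)
  have hbij : Function.Bijective h := by
    rw [Fintype.bijective_iff_injective_and_card]
    refine ⟨hinj, ?_⟩
    simp [Pos]
    omega
  exact ⟨Equiv.ofBijective h hbij, fun x => rfl⟩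

theorem fromVal {r : ℕ} (R : SimpleGraph (Fin (2 * r + 1))) (σ : Pos r ≃ Fin (2 * r + 1))
    (i j : ℕ) (hij : i + j = r) (h : val R σ = i) : HasRB R univ i j := by
  have h1 : Fintype.card {a // a ∈ reds R σ} = i := by
    rw [Fintype.card_coe]
    exact h
  have h2 : Fintype.card {a // a ∉ reds R σ} = j := by
    have := Fintype.card_subtype_compl (fun a => a ∈ reds R σ)
    rw [this, h1, Fintype.card_fin]
    omega
  have eA : Fin i ≃ {a // a ∈ reds R σ} := (Fintype.equivFinOfCardEq h1).symm
  have eB : Fin j ≃ {a // a ∉ reds R σ} := (Fintype.equivFinOfCardEq h2).symm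
  set g : Fin i ⊕ Fin j → Fin r := fun x => Sum.elim (fun a => (eA a).1) (fun b => (eB b).1) x
    with hg
  have ginj : Function.Injective g := by
    intro x y hxy
    rcases x with x | x <;> rcases y with y | y
    · exact congrArg Sum.inl (eA.injective (Subtype.ext hxy))
    · have h3 : (eA x).1 = (eB y).1 := hxy
      exact absurd (h3 ▸ (eA x).2) (eB y).2
    · have h3 : (eB x).1 = (eA y).1 := hxy
      exact absurd (h3 ▸ (eA y).2) (eB x).2
    · exact congrArg Sum.inr (eB.injective (Subtype.ext hxy))
  refine ⟨⟨fun x => σ (some (g x.1, x.2)), ?_⟩, fun x => mem_univ _, ?_, ?_⟩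
  · intro x y hxy
    have h3 := σ.injective hxy
    simp only [Option.some.injEq, Prod.mk.injEq] at h3
    exact Prod.ext (ginj h3.1) h3.2
  · intro a
    have h3 := (eA a).2
    unfold reds at h3
    exact (mem_filter.1 h3).2
  · intro b
    have h3 := (eB b).2
    unfold reds at h3
    rw [mem_filter, not_and] at h3
    rw [SimpleGraph.compl_adj]
    refine ⟨?_, h3 (mem_univ _)⟩
    intro h4
    have h5 := σ.injective h4
    simp only [Option.some.injEq, Prod.mk.injEq] at h5
    exact Bool.noConfusion h5.2

theorem main : W872.MX.PartODD := by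
  intro r R hred hblue i j hij
  have hcard : (univ : Finset (Fin (2 * r + 1))).card / 2 = r := by
    rw [card_univ, Fintype.card_fin]
    omega
  rw [hcard] at hij
  by_contra hcon
  have hi : ∀ σ : Pos r ≃ Fin (2 * r + 1), val R σ ≠ i := fun σ h =>
    hcon (fromVal R σ i j hij h)
  obtain ⟨f, -, hf, -⟩ := hred
  obtain ⟨f', -, -, hf'⟩ := hblue
  obtain ⟨σ₁, h₁⟩ := ext (r := r) ⟨fun x => f (Sum.inl x.1, x.2), by
    intro x y hxy
    have h3 := f.injective hxy
    simp only [Prod.mk.injEq, Sum.inl.injEq] at h3
    exact Prod.ext h3.1 h3.2⟩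
  obtain ⟨σ₀, h₀⟩ := ext (r := r) ⟨fun x => f' (Sum.inr x.1, x.2), by
    intro x y hxy
    have h3 := f'.injective hxy
    simp only [Prod.mk.injEq, Sum.inr.injEq] at h3
    exact Prod.ext h3.1 h3.2⟩
  have v1 : val R σ₁ = r := by
    have h : reds R σ₁ = univ := by
      unfold reds
      rw [filter_eq_self]
      intro a _
      rw [h₁, h₁]
      exact hf a
    unfold val
    rw [h, card_univ, Fintype.card_fin]
  have v0 : val R σ₀ = 0 := by
    have h : reds R σ₀ = ∅ := by
      unfold reds
      rw [filter_eq_empty_iff]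
      intro a _
      rw [h₀, h₀]
      exact ((SimpleGraph.compl_adj _ _ _).1 (hf' a)).2
    unfold val
    rw [h, card_empty]
  have h3 := conn R i hi σ₀ (by have := hi σ₀; omega) (σ₁.trans σ₀.symm)
  have h4 : Equiv.trans (σ₁.trans σ₀.symm) σ₀ = σ₁ := by
    ext x
    simp
  have h5 : val R (Equiv.trans (σ₁.trans σ₀.symm) σ₀) = val R σ₁ := congrArg (val R) h4
  rw [h5, v1] at h3
  omega

end

end Pool.Agent.W412.MX
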